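import Mathlib

/-!
# Primary jacket matrices of every width over the field with five elements

For `v = 2 n ≡ 4 (mod 5)` the matrix `J - 2 I` satisfies `M Mᵀ = v I` modulo `5`. Its rows and columns
are paired by `i ↦ v - 1 - i`. Multiplying by `2` the `2 × 2` blocks of some of these pairs keeps the
orthogonality relations.
-/

set_option autoImplicit false

namespace Pool.Agent.Results.MP_522cd8_co.AllWidths

open Finset

/-- A GBH(`N`, `v`) matrix over the ring `R`. -/
def IsGBH {R : Type} [Ring R] (N : Subgroup Rˣ) {v : ℕ} (M : Matrix (Fin v) (Fin v) Rˣ) : Prop :=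
  2 ≤ v ∧ ¬ ringChar R ∣ v ∧ (∀ i j, M i j ∈ N) ∧
  (∀ i j, ∑ k, (M i k : R) * ((M j k)⁻¹ : Rˣ) = if i = j then (v : R) else 0) ∧
  (∀ i j, ∑ k, ((M k i)⁻¹ : Rˣ) * (M k j : R) = if i = j then (v : R) else 0)

/-- The first row and the first column consist of `1`s. -/
def IsNormalised {R : Type} [Ring R] {v : ℕ} (M : Matrix (Fin v) (Fin v) Rˣ) : Prop :=
  ∀ i j : Fin v, (i : ℕ) = 0 → M i j = 1 ∧ M j i = 1

/-- `M'` arises from `M` by permuting rows and permuting columns. -/
def PermEquiv {R : Type} [Ring R] {v : ℕ} (M M' : Matrix (Fin v) (Fin v) Rˣ) : Prop :=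
  ∃ σ τ : Equiv.Perm (Fin v), ∀ i j, M' i j = M (σ i) (τ j)

/-- The rows and the columns with (zero-based) index less than `m` or at least `v - m` have all their
entries in `{1, -1}`. -/
def Bordered {R : Type} [Ring R] {v : ℕ} (M : Matrix (Fin v) (Fin v) Rˣ) (m : ℕ) : Prop :=
  ∀ i j : Fin v, ((i : ℕ) < m ∨ v - m ≤ (i : ℕ)) →
    (M i j = 1 ∨ M i j = -1) ∧ (M j i = 1 ∨ M j i = -1)

/-- A jacket matrix: a normalised GBH(`N`, `v`) matrix permutation equivalent to a matrix whose first row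
and column are all `1`s and whose last row and column have entries `1` or `-1`. -/
def IsJacket {R : Type} [Ring R] (N : Subgroup Rˣ) {v : ℕ} (K : Matrix (Fin v) (Fin v) Rˣ) : Prop :=
  IsGBH N K ∧ IsNormalised K ∧ ∃ K', PermEquiv K K' ∧ IsNormalised K' ∧
    ∀ i j : Fin v, (i : ℕ) + 1 = v → (K' i j = 1 ∨ K' i j = -1) ∧ (K' j i = 1 ∨ K' j i = -1)

/-- The numbers `m ≥ 1` (with `2 m ≤ v`) over which the maximum defining the jacket width is taken. -/
def WidthAtLeast {R : Type} [Ring R] {v : ℕ} (K : Matrix (Fin v) (Fin v) Rˣ) (m : ℕ) : Prop :=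
  1 ≤ m ∧ 2 * m ≤ v ∧ ∃ K', PermEquiv K K' ∧ IsNormalised K' ∧
    (∀ i j : Fin v, (i : ℕ) + 1 = v → (K' i j = 1 ∨ K' i j = -1) ∧ (K' j i = 1 ∨ K' j i = -1)) ∧
    Bordered K' m

/-- The jacket width of `K` is exactly `w`. -/
def HasWidth {R : Type} [Ring R] {v : ℕ} (K : Matrix (Fin v) (Fin v) Rˣ) (w : ℕ) : Prop :=
  WidthAtLeast K w ∧ ∀ m, WidthAtLeast K m → m ≤ w

/-- `K` is not permutation equivalent to a Kronecker product of two jacket matrices. -/
def IsPrimary {R : Type} [Ring R] {v : ℕ} (K : Matrix (Fin v) (Fin v) Rˣ) : Prop :=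
  ¬ ∃ (N₁ N₂ : Subgroup Rˣ) (v₁ v₂ : ℕ) (K₁ : Matrix (Fin v₁) (Fin v₁) Rˣ)
    (K₂ : Matrix (Fin v₂) (Fin v₂) Rˣ) (e f : Fin v ≃ Fin v₁ × Fin v₂),
    IsJacket N₁ K₁ ∧ IsJacket N₂ K₂ ∧
      ∀ i j, K i j = K₁ (e i).1 (f j).1 * K₂ (e i).2 (f j).2

/-- The admissible widths. -/
def Admissible (n w : ℕ) : Prop := 1 ≤ w ∧ (Even n → w ≤ n) ∧ (Odd n → w ≤ n - 1)

/-- Property (F). -/
def PropertyF (R : Type) [Ring R] (N : Subgroup Rˣ) : Prop :=
  {n : ℕ | ∀ w, Admissible n w → ∃ K : Matrix (Fin (2 * n)) (Fin (2 * n)) Rˣ,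
    IsJacket N K ∧ IsPrimary K ∧ HasWidth K w}.Infinite

/-! ### The matrices -/

instance fact5 : Fact (Nat.Prime 5) := ⟨by norm_num⟩

/-- The unit `2` of the field with five elements. -/
def two : (ZMod 5)ˣ := ⟨2, 3, by decide, by decide⟩

/-- Index in one of the first `w` blocks. -/
def Low (n w : ℕ) (i : Fin (2 * n)) : Prop := (i : ℕ) < w ∨ 2 * n - w ≤ (i : ℕ)

instance (n w : ℕ) (i : Fin (2 * n)) : Decidable (Low n w i) := by unfold Low; infer_instance

/-- The factor of the block of `i`. -/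
def fac (n w : ℕ) (i : Fin (2 * n)) : (ZMod 5)ˣ := if Low n w i then 1 else two

theorem low_rev (n w : ℕ) (i : Fin (2 * n)) (_ : w ≤ n) : Low n w i.rev ↔ Low n w i := by
  unfold Low
  rw [Fin.val_rev]
  have := i.isLt
  omega

theorem fac_rev (n w : ℕ) (i : Fin (2 * n)) (hw : w ≤ n) : fac n w i.rev = fac n w i := by
  unfold fac
  simp only [low_rev n w i hw]

/-- The matrix before normalisation. -/
def B (n w : ℕ) (i j : Fin (2 * n)) : (ZMod 5)ˣ :=
  if j = i then - fac n w i else if j = i.rev then fac n w i else 1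

theorem B_symm (n w : ℕ) (hw : w ≤ n) (i j : Fin (2 * n)) : B n w i j = B n w j i := by
  unfold B
  by_cases h : j = i
  · subst h; rfl
  · rw [if_neg h, if_neg (Ne.symm h)]
    by_cases h2 : j = i.rev
    · subst h2
      rw [if_pos rfl, if_pos (by rw [Fin.rev_rev]), fac_rev n w i hw]
    · rw [if_neg h2, if_neg]
      rintro rfl
      exact h2 (by rw [Fin.rev_rev])

theorem rev_ne (n : ℕ) (i : Fin (2 * n)) : i.rev ≠ i := by
  intro h
  have := congrArg Fin.val h
  rw [Fin.val_rev] at this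
  have := i.isLt
  omega

/-- The sign of the normalisation. -/
def e0 (n : ℕ) (i : Fin (2 * n)) : (ZMod 5)ˣ := if (i : ℕ) = 0 then -1 else 1

/-- The normalised matrix. -/
def K (n w : ℕ) : Matrix (Fin (2 * n)) (Fin (2 * n)) (ZMod 5)ˣ :=
  fun i j => - (e0 n i * e0 n j * B n w i j)

theorem e0_sq (n : ℕ) (i : Fin (2 * n)) : e0 n i * (e0 n i)⁻¹ = 1 := mul_inv_cancel _

theorem sum_delta {ι : Type} [Fintype ι] [DecidableEq ι] (i : ι) (f : ι → ZMod 5) :
    ∑ k, (if k = i then f k else 0) = f i := by simp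

theorem fac_cases (n w : ℕ) (i : Fin (2 * n)) : fac n w i = 1 ∨ fac n w i = two := by
  unfold fac
  split_ifs <;> simp

theorem B_val (n w : ℕ) (i k : Fin (2 * n)) : ((B n w i k : (ZMod 5)ˣ) : ZMod 5)
    = 1 + (if k = i then - (fac n w i : ZMod 5) - 1 else 0)
      + (if k = i.rev then (fac n w i : ZMod 5) - 1 else 0) := by
  unfold B
  by_cases h : k = i
  · rw [if_pos h, if_pos h, if_neg (by rw [h]; exact (rev_ne n i).symm)]
    push_cast; ring
  · rw [if_neg h, if_neg h]
    by_cases h2 : k = i.rev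
    · rw [if_pos h2, if_pos h2]; ring
    · rw [if_neg h2, if_neg h2]; simp

theorem B_inv_val (n w : ℕ) (i k : Fin (2 * n)) : (((B n w i k)⁻¹ : (ZMod 5)ˣ) : ZMod 5)
    = 1 + (if k = i then - (((fac n w i)⁻¹ : (ZMod 5)ˣ) : ZMod 5) - 1 else 0)
      + (if k = i.rev then (((fac n w i)⁻¹ : (ZMod 5)ˣ) : ZMod 5) - 1 else 0) := by
  unfold B
  by_cases h : k = i
  · rw [if_pos h, if_pos h, if_neg (by rw [h]; exact (rev_ne n i).symm), inv_neg]
    push_cast; ring
  · rw [if_neg h, if_neg h]
    by_cases h2 : k = i.rev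
    · rw [if_pos h2, if_pos h2]; ring
    · rw [if_neg h2, if_neg h2]; simp

theorem sum_expand {ι : Type} [Fintype ι] [DecidableEq ι] (i i' j j' : ι) (a b c d : ZMod 5) :
    ∑ k, (1 + (if k = i then a else 0) + (if k = i' then b else 0)) *
      (1 + (if k = j then c else 0) + (if k = j' then d else 0))
      = (Fintype.card ι : ZMod 5) + a + b + c + d + a * (if i = j then c else 0)
        + a * (if i = j' then d else 0) + b * (if i' = j then c else 0)
        + b * (if i' = j' then d else 0) := by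
  have h : ∀ k, (1 + (if k = i then a else 0) + (if k = i' then b else 0)) *
      (1 + (if k = j then c else 0) + (if k = j' then d else 0))
      = 1 + (if k = i then a else 0) + (if k = i' then b else 0) + (if k = j then c else 0)
        + (if k = j' then d else 0)
        + (if k = i then a * (if k = j then c else 0) else 0)
        + (if k = i then a * (if k = j' then d else 0) else 0)
        + (if k = i' then b * (if k = j then c else 0) else 0)
        + (if k = i' then b * (if k = j' then d else 0) else 0) := by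
    intro k
    simp only [← ite_zero_mul]
    ring
  rw [Finset.sum_congr rfl fun k _ => h k]
  simp only [Finset.sum_add_distrib]
  rw [sum_delta i (fun _ => a), sum_delta i' (fun _ => b), sum_delta j (fun _ => c),
    sum_delta j' (fun _ => d), sum_delta i (fun k => a * (if k = j then c else 0)),
    sum_delta i (fun k => a * (if k = j' then d else 0)),
    sum_delta i' (fun k => b * (if k = j then c else 0)),
    sum_delta i' (fun k => b * (if k = j' then d else 0))]
  simp

theorem B_orth (n w : ℕ) (hw : w ≤ n) (hn : (2 * n : ℕ) % 5 = 4) (i j : Fin (2 * n)) :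
    ∑ k, ((B n w i k : (ZMod 5)ˣ) : ZMod 5) * ((B n w j k)⁻¹ : (ZMod 5)ˣ)
      = if i = j then ((2 * n : ℕ) : ZMod 5) else 0 := by
  have hv : ((2 * n : ℕ) : ZMod 5) = 4 := by
    have h1 : ((2 * n : ℕ) : ZMod 5) = (((2 * n : ℕ) % 5 : ℕ) : ZMod 5) := (ZMod.natCast_mod _ _).symm
    rw [h1, hn]; rfl
  simp only [B_val, B_inv_val]
  rw [sum_expand, Fintype.card_fin, hv]
  have hrr : ∀ a b : Fin (2 * n), a.rev = b.rev ↔ a = b := fun a b => Fin.rev_inj
  by_cases hij : i = j
  · subst hij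
    simp only [if_true, if_neg (rev_ne n i).symm, if_neg (rev_ne n i)]
    rcases fac_cases n w i with h | h <;> rw [h] <;> decide
  · have hij' : ¬ i.rev = j.rev := fun h => hij ((hrr _ _).1 h)
    simp only [if_neg hij, if_neg hij']
    by_cases h2 : i = j.rev
    · have h3 : i.rev = j := by rw [h2, Fin.rev_rev]
      simp only [if_pos h2, if_pos h3]
      rw [h2, fac_rev n w j hw]
      rcases fac_cases n w j with h | h <;> rw [h] <;> decide
    · have h3 : ¬ i.rev = j := fun h => h2 (by rw [← h, Fin.rev_rev])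
      simp only [if_neg h2, if_neg h3]
      rcases fac_cases n w i with h | h <;> rcases fac_cases n w j with h' | h' <;> rw [h, h'] <;>
        decide

theorem K_gbh (n w : ℕ) (hw : w ≤ n) (hn : (2 * n : ℕ) % 5 = 4) :
    IsGBH (⊤ : Subgroup (ZMod 5)ˣ) (K n w) := by
  have key : ∀ i j, ∑ k, ((K n w i k : (ZMod 5)ˣ) : ZMod 5) * ((K n w j k)⁻¹ : (ZMod 5)ˣ)
      = if i = j then ((2 * n : ℕ) : ZMod 5) else 0 := by
    intro i j
    have h : ∀ k, ((K n w i k : (ZMod 5)ˣ) : ZMod 5) * ((K n w j k)⁻¹ : (ZMod 5)ˣ)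
        = ((e0 n i * (e0 n j)⁻¹ : (ZMod 5)ˣ) : ZMod 5) *
          (((B n w i k : (ZMod 5)ˣ) : ZMod 5) * ((B n w j k)⁻¹ : (ZMod 5)ˣ)) := by
      intro k
      rw [← Units.val_mul, ← Units.val_mul, ← Units.val_mul]
      congr 1
      unfold K
      rw [inv_neg, neg_mul_neg, mul_inv, mul_inv]
      have := e0_sq n k
      calc e0 n i * e0 n k * B n w i k * ((e0 n j)⁻¹ * (e0 n k)⁻¹ * (B n w j k)⁻¹)
          = (e0 n i * (e0 n j)⁻¹) * (e0 n k * (e0 n k)⁻¹) * (B n w i k * (B n w j k)⁻¹) := by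
            simp only [mul_comm, mul_left_comm, mul_assoc]
        _ = _ := by rw [this, mul_one]
    rw [Finset.sum_congr rfl fun k _ => h k, ← Finset.mul_sum, B_orth n w hw hn]
    by_cases hij : i = j
    · subst hij; rw [if_pos rfl, mul_inv_cancel]; simp
    · simp only [if_neg hij, mul_zero]
  have hsymm : ∀ i j, K n w i j = K n w j i := by
    intro i j
    unfold K
    rw [B_symm n w hw i j, mul_comm (e0 n i)]
  refine ⟨by omega, ?_, fun i j => Subgroup.mem_top _, key, ?_⟩
  · rw [ZMod.ringChar_zmod_n]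
    omega
  · intro i j
    have := key j i
    rw [show (if i = j then ((2 * n : ℕ) : ZMod 5) else 0) = if j = i then ((2 * n : ℕ) : ZMod 5) else 0
      by simp only [eq_comm], ← this]
    apply Finset.sum_congr rfl
    intro k _
    rw [hsymm k i, hsymm k j, mul_comm]

theorem K_norm (n w : ℕ) (hw : 1 ≤ w) : IsNormalised (K n w) := by
  intro i j hi
  have hfac : fac n w i = 1 := by
    have hl : Low n w i := Or.inl (by omega)
    unfold fac
    rw [if_pos hl]
  have hfac' : ∀ j : Fin (2 * n), j = i.rev → fac n w j = 1 := by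
    intro j hj
    have hl : Low n w j := by
      right
      rw [hj, Fin.val_rev]; omega
    unfold fac
    rw [if_pos hl]
  constructor
  · unfold K B e0
    rw [if_pos hi, hfac]
    by_cases hj : j = i
    · subst hj
      rw [if_pos hi, if_pos rfl]; simp
    · have hj0 : ¬ (j : ℕ) = 0 := fun h => hj (Fin.ext (by rw [h, hi]))
      rw [if_neg hj0, if_neg hj]
      split_ifs <;> simp
  · unfold K B e0
    rw [if_pos hi]
    by_cases hj : j = i
    · subst hj
      rw [if_pos hi, if_pos rfl, hfac]; simp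
    · have hj0 : ¬ (j : ℕ) = 0 := fun h => hj (Fin.ext (by rw [h, hi]))
      rw [if_neg hj0, if_neg (Ne.symm hj)]
      by_cases h2 : i = j.rev
      · rw [if_pos h2, hfac' j (by rw [h2, Fin.rev_rev])]; simp
      · rw [if_neg h2]; simp

theorem e0_cases (n : ℕ) (i : Fin (2 * n)) : e0 n i = 1 ∨ e0 n i = -1 := by
  unfold e0; split_ifs <;> simp

theorem K_symm (n w : ℕ) (hw : w ≤ n) (i j : Fin (2 * n)) : K n w i j = K n w j i := by
  unfold K
  rw [B_symm n w hw i j, mul_comm (e0 n i)]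

theorem K_low (n w : ℕ) (i j : Fin (2 * n)) (hi : Low n w i) : K n w i j = 1 ∨ K n w i j = -1 := by
  have hfac : fac n w i = 1 := by unfold fac; rw [if_pos hi]
  have hB : B n w i j = 1 ∨ B n w i j = -1 := by
    unfold B; rw [hfac]; split_ifs <;> simp
  unfold K
  rcases hB with h | h <;> rcases e0_cases n i with h1 | h1 <;> rcases e0_cases n j with h2 | h2 <;>
    rw [h, h1, h2] <;> simp

theorem K_high (n w : ℕ) (i : Fin (2 * n)) (hi : ¬ Low n w i) :
    ¬ (K n w i i = 1 ∨ K n w i i = -1) := by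
  have hfac : fac n w i = two := by unfold fac; rw [if_neg hi]
  have hB : B n w i i = - two := by
    unfold B; rw [hfac, if_pos rfl]
  unfold K
  rcases e0_cases n i with h1 | h1 <;> rw [hB, h1] <;> decide

theorem K_bordered (n w : ℕ) (hw : w ≤ n) : Bordered (K n w) w := by
  intro i j hi
  exact ⟨K_low n w i j hi, by rw [K_symm n w hw]; exact K_low n w i j hi⟩

theorem K_last (n w : ℕ) (hw1 : 1 ≤ w) (hw : w ≤ n) (i j : Fin (2 * n)) (hi : (i : ℕ) + 1 = 2 * n) :
    (K n w i j = 1 ∨ K n w i j = -1) ∧ (K n w j i = 1 ∨ K n w j i = -1) :=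
  K_bordered n w hw i j (Or.inr (by omega))

theorem permEquiv_refl {R : Type} [Ring R] {v : ℕ} (M : Matrix (Fin v) (Fin v) Rˣ) :
    PermEquiv M M := ⟨1, 1, fun _ _ => rfl⟩

theorem K_jacket (n w : ℕ) (hw1 : 1 ≤ w) (hw : w ≤ n) (hn : (2 * n : ℕ) % 5 = 4) :
    IsJacket (⊤ : Subgroup (ZMod 5)ˣ) (K n w) :=
  ⟨K_gbh n w hw hn, K_norm n w hw1, K n w, permEquiv_refl _, K_norm n w hw1,
    fun i j hi => K_last n w hw1 hw i j hi⟩

theorem K_width (n w : ℕ) (hw1 : 1 ≤ w) (hw : w ≤ n) : HasWidth (K n w) w := by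
  refine ⟨⟨hw1, by omega, K n w, permEquiv_refl _, K_norm n w hw1,
    fun i j hi => K_last n w hw1 hw i j hi, K_bordered n w hw⟩, ?_⟩
  rintro m ⟨hm1, hm2, K', ⟨σ, τ, hστ⟩, _, _, hbord⟩
  by_contra hlt
  push Not at hlt
  have hmaps : ∀ i : Fin (2 * n), Low n m i → Low n w (σ i) := by
    intro i hi
    by_contra hh
    apply K_high n w (σ i) hh
    have := (hbord i (τ.symm (σ i)) hi).1
    rw [hστ, Equiv.apply_symm_apply] at this
    exact this
  have hcard : (univ.filter fun i : Fin (2 * n) => Low n m i).card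
      ≤ (univ.filter fun i : Fin (2 * n) => Low n w i).card := by
    apply Finset.card_le_card_of_injOn σ
    · intro i hi
      simp only [Finset.coe_filter, Finset.mem_univ, true_and, Set.mem_ofPred_eq] at hi ⊢
      exact hmaps i hi
    · exact σ.injective.injOn
  have hss : (univ.filter fun i : Fin (2 * n) => Low n w i) ⊂
      (univ.filter fun i : Fin (2 * n) => Low n m i) := by
    rw [Finset.ssubset_iff_of_subset]
    · refine ⟨⟨w, by omega⟩, ?_, ?_⟩
      · rw [Finset.mem_filter]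
        exact ⟨Finset.mem_univ _, Or.inl hlt⟩
      · rw [Finset.mem_filter]
        rintro ⟨_, h⟩
        unfold Low at h
        simp only at h
        omega
    · intro i hi
      rw [Finset.mem_filter] at hi ⊢
      refine ⟨Finset.mem_univ _, ?_⟩
      have := hi.2
      unfold Low at this ⊢
      omega
  have := Finset.card_lt_card hss
  omega

/-- Two rows of `K` are proportional outside at most four columns. -/
theorem K_ratio (n w : ℕ) (i j : Fin (2 * n)) : ∃ ε : (ZMod 5)ˣ, ∀ k : Fin (2 * n),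
    k ≠ i → k ≠ i.rev → k ≠ j → k ≠ j.rev → K n w i k = ε * K n w j k := by
  refine ⟨e0 n i * (e0 n j)⁻¹, fun k h1 h2 h3 h4 => ?_⟩
  unfold K B
  rw [if_neg h1, if_neg h2, if_neg h3, if_neg h4]
  simp

theorem K_indecomposable (n w : ℕ) (hw : w ≤ n) (hn : (2 * n : ℕ) % 5 = 4) (v₁ v₂ : ℕ)
    (h1 : 5 ≤ v₁) (h2 : 2 ≤ v₂) (K₁ : Matrix (Fin v₁) (Fin v₁) (ZMod 5)ˣ)
    (K₂ : Matrix (Fin v₂) (Fin v₂) (ZMod 5)ˣ) (e f : Fin (2 * n) ≃ Fin v₁ × Fin v₂)
    (hK : ∀ i j, K n w i j = K₁ (e i).1 (f j).1 * K₂ (e i).2 (f j).2) : False := by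
  have hb : (⟨0, by omega⟩ : Fin v₂) ≠ ⟨1, by omega⟩ := by
    intro h; have := congrArg Fin.val h; simp at this
  set a : Fin v₁ := ⟨0, by omega⟩
  set b : Fin v₂ := ⟨0, by omega⟩
  set b' : Fin v₂ := ⟨1, by omega⟩
  set i := e.symm (a, b) with hi
  set j := e.symm (a, b') with hj
  have hij : i ≠ j := by
    intro h
    have := e.symm.injective h
    exact hb (congrArg Prod.snd this)
  obtain ⟨ε, hε⟩ := K_ratio n w i j
  -- every column pattern avoids the exceptional columns
  have hpat : ∀ d : Fin v₂, K₂ b d = ε * K₂ b' d := by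
    intro d
    obtain ⟨c, hc⟩ : ∃ c : Fin v₁, f.symm (c, d) ∉ ({i, i.rev, j, j.rev} : Finset (Fin (2 * n))) := by
      by_contra hcon
      push Not at hcon
      have hle : (univ : Finset (Fin v₁)).card ≤ ({i, i.rev, j, j.rev} : Finset (Fin (2 * n))).card := by
        apply Finset.card_le_card_of_injOn (fun c => f.symm (c, d))
        · intro c _
          exact hcon c
        · intro c _ c' _ h
          have := f.symm.injective h
          exact congrArg Prod.fst this
      rw [Finset.card_univ, Fintype.card_fin] at hle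
      have h4 : ({i, i.rev, j, j.rev} : Finset (Fin (2 * n))).card ≤ 4 := Finset.card_le_four
      omega
    simp only [Finset.mem_insert, Finset.mem_singleton, not_or] at hc
    have h := hε _ hc.1 hc.2.1 hc.2.2.1 hc.2.2.2
    rw [hK, hK, hi, hj] at h
    simp only [Equiv.apply_symm_apply] at h
    rw [mul_left_comm] at h
    exact mul_left_cancel h
  have hall : ∀ k, K n w i k = ε * K n w j k := by
    intro k
    rw [hK, hK, hi, hj]
    simp only [Equiv.apply_symm_apply]
    rw [hpat, mul_left_comm]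
  have horth := (K_gbh n w hw hn).2.2.2.1 i j
  rw [if_neg hij] at horth
  have hterm : ∀ k, ((K n w i k : (ZMod 5)ˣ) : ZMod 5) * ((K n w j k)⁻¹ : (ZMod 5)ˣ) = (ε : ZMod 5) := by
    intro k
    rw [hall k, ← Units.val_mul, mul_assoc, mul_inv_cancel, mul_one]
  rw [Finset.sum_congr rfl fun k _ => hterm k, Finset.sum_const, Finset.card_univ, Fintype.card_fin,
    nsmul_eq_mul] at horth
  rcases (mul_eq_zero.1 horth) with h | h
  · rw [ZMod.natCast_eq_zero_iff] at h
    omega
  · exact ε.ne_zero h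

theorem K_primary (n w : ℕ) (hw : w ≤ n) (hn : (2 * n : ℕ) % 5 = 4) (hbig : 16 < 2 * n) :
    IsPrimary (K n w) := by
  rintro ⟨N₁, N₂, v₁, v₂, K₁, K₂, e, f, hJ1, hJ2, hK⟩
  have h1 : 2 ≤ v₁ := hJ1.1.1
  have h2 : 2 ≤ v₂ := hJ2.1.1
  have hcard : 2 * n = v₁ * v₂ := by
    have := Fintype.card_congr e
    simpa using this
  rcases Nat.lt_or_ge 4 v₁ with h | h
  · exact K_indecomposable n w hw hn v₁ v₂ h h2 K₁ K₂ e f hK
  · rcases Nat.lt_or_ge 4 v₂ with h' | h'
    · apply K_indecomposable n w hw hn v₂ v₁ h' h1 K₂ K₁ (e.trans (Equiv.prodComm _ _))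
        (f.trans (Equiv.prodComm _ _))
      intro i j
      rw [hK, mul_comm]
      rfl
    · have : v₁ * v₂ ≤ 4 * 4 := Nat.mul_le_mul h h'
      omega

/-- Property (F) holds for the field with five elements and its full group of units. -/
theorem result : PropertyF (ZMod 5) (⊤ : Subgroup (ZMod 5)ˣ) := by
  unfold PropertyF
  apply Set.infinite_of_injective_forall_mem (f := fun t : ℕ => 5 * t + 12)
  · intro a b h
    simp only at h
    omega
  · intro t w hw
    have hwle : w ≤ 5 * t + 12 := by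
      rcases Nat.even_or_odd (5 * t + 12) with h | h
      · exact hw.2.1 h
      · have := hw.2.2 h; omega
    have hn : (2 * (5 * t + 12) : ℕ) % 5 = 4 := by omega
    exact ⟨K (5 * t + 12) w, K_jacket _ w hw.1 hwle hn, K_primary _ w hwle hn (by omega),
      K_width _ w hw.1 hwle⟩

end Pool.Agent.Results.MP_522cd8_co.AllWidths
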